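import Pool.Agent.H95.ND.Targets

/-!
# Module NGS of MP_57ddd5_pr (part D2): no good scale below the allowed maximum
-/

open MeasureTheory ProbabilityTheory
open scoped ENNReal

namespace Pool.Agent.H37.PD

open Pool.Agent.H99.NS Pool.Agent.H22.LPP Pool.Agent.H95.INS Pool.Agent.H76.ND
open Pool.Agent.H95.ND
open Pool.Agent.H97.NF (PEnv eA eB PN)

/-- Doubly exponential decay beats exponential growth. -/
theorem exists_bound (κ c s : ℝ) (hc : 0 < c) (hs : 0 < s) : ∃ S : ℝ, 0 < S ∧ ∀ N : ℕ,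
    ∑ h ∈ Finset.range N, Real.exp (κ * h) *
      Real.exp (-(c * ((8 / 3 : ℝ) ^ (h - 1) / 32) ^ s)) ≤ S := by
  set r : ℝ := (8 / 3 : ℝ) ^ s with hr
  have hr1 : 1 < r := Real.one_lt_rpow (by norm_num) hs
  have hr0 : 0 < r := by linarith
  set c1 : ℝ := c / 32 ^ s with hc1
  have hc1p : 0 < c1 := by positivity
  have hterm : ∀ h : ℕ, c * ((8 / 3 : ℝ) ^ (h - 1) / 32) ^ s = c1 * r ^ (h - 1) := by
    intro h
    rw [Real.div_rpow (by positivity) (by norm_num), hc1, hr, ← Real.rpow_natCast,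
      ← Real.rpow_natCast, ← Real.rpow_mul (by norm_num), ← Real.rpow_mul (by norm_num),
      mul_comm s]
    ring
  have hlim := tendsto_pow_const_div_const_pow_of_one_lt 1 hr1
  have hpos : 0 < c1 / (r * (|κ| + 1)) := by positivity
  have hev := hlim.eventually (gt_mem_nhds hpos)
  rw [Filter.eventually_atTop] at hev
  obtain ⟨N0, hN0⟩ := hev
  have hC3 : ∀ h : ℕ, κ * h - c1 * r ^ (h - 1) ≤ (|κ| + 1) * (N0 + 1) - h := by
    intro h
    have hκ : κ * h ≤ |κ| * h := mul_le_mul_of_nonneg_right (le_abs_self κ) (by positivity)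
    rcases Nat.lt_or_ge h (N0 + 1) with h1 | h1
    · have h2 : (h : ℝ) ≤ N0 + 1 := by exact_mod_cast h1.le
      have h3 : (|κ| + 1) * (h : ℝ) ≤ (|κ| + 1) * (N0 + 1) :=
        mul_le_mul_of_nonneg_left h2 (by positivity)
      have h4 : 0 ≤ c1 * r ^ (h - 1) := by positivity
      linarith
    · have h2 := hN0 h (by omega)
      rw [pow_one, div_lt_div_iff₀ (by positivity) (by positivity)] at h2
      have h3 : r ^ h = r * r ^ (h - 1) := by
        rw [← pow_succ']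
        congr 1
        omega
      rw [h3] at h2
      have h5 : (h : ℝ) * (|κ| + 1) < c1 * r ^ (h - 1) := by
        have : r * ((h : ℝ) * (|κ| + 1)) < r * (c1 * r ^ (h - 1)) := by
          nlinarith [h2]
        exact lt_of_mul_lt_mul_left this hr0.le
      have h6 : 0 ≤ (|κ| + 1) * ((N0 : ℝ) + 1) := by positivity
      linarith
  refine ⟨Real.exp ((|κ| + 1) * (N0 + 1)) * ∑' n : ℕ, (Real.exp (-1)) ^ n, ?_, ?_⟩
  · refine mul_pos (Real.exp_pos _) ?_
    have he : Real.exp (-1) < 1 := by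
      rw [Real.exp_lt_one_iff]
      norm_num
    rw [tsum_geometric_of_lt_one (Real.exp_pos _).le he]
    exact inv_pos.2 (by linarith)
  · intro N
    have he : Real.exp (-1) < 1 := by
      rw [Real.exp_lt_one_iff]
      norm_num
    have hsum := (summable_geometric_of_lt_one (Real.exp_pos (-1)).le he).sum_le_tsum
      (Finset.range N) (fun n _ => by positivity)
    refine le_trans ?_ (mul_le_mul_of_nonneg_left hsum (Real.exp_pos _).le)
    rw [Finset.mul_sum]
    refine Finset.sum_le_sum fun h _ => ?_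
    rw [hterm, ← Real.exp_add, ← Real.exp_nat_mul, ← Real.exp_add]
    refine Real.exp_le_exp.2 ?_
    have := hC3 h
    linarith

theorem le_sqrt_mul {x y z : ℝ} {m : ℝ≥0∞} (hx : m ≤ ENNReal.ofReal x)
    (hy : m ≤ ENNReal.ofReal y) (hz : 0 ≤ z) (h : x * y = z * z) :
    m ≤ ENNReal.ofReal z := by
  rcases le_or_gt x z with h1 | h1
  · exact hx.trans (ENNReal.ofReal_le_ofReal h1)
  · rcases le_or_gt y z with h2 | h2
    · exact hy.trans (ENNReal.ofReal_le_ofReal h2)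
    · exfalso
      nlinarith

/-- Number of windows. -/
theorem card_win (W : Finset ℤ) (Y : ℝ) (hY : 0 ≤ Y) :
    ((W.filter (fun w : ℤ => |(w : ℝ)| ≤ Y)).card : ℝ) ≤ 2 * Y + 1 := by
  have h1 : W.filter (fun w : ℤ => |(w : ℝ)| ≤ Y) ⊆ Finset.Icc (-⌊Y⌋) ⌊Y⌋ := by
    intro w hw
    rw [Finset.mem_filter] at hw
    have h2 := abs_le.1 hw.2
    rw [Finset.mem_Icc]
    constructor
    · have : -w ≤ ⌊Y⌋ := Int.le_floor.2 (by push_cast; linarith [h2.1])
      linarith
    · exact Int.le_floor.2 h2.2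
  have h3 := Finset.card_le_card h1
  rw [Int.card_Icc] at h3
  have h4 : 0 ≤ ⌊Y⌋ := Int.floor_nonneg.2 hY
  have h5 : ((⌊Y⌋ + 1 - -⌊Y⌋).toNat : ℝ) = 2 * (⌊Y⌋ : ℝ) + 1 := by
    have h6 : ((⌊Y⌋ + 1 - -⌊Y⌋).toNat : ℤ) = 2 * ⌊Y⌋ + 1 := by
      rw [Int.toNat_of_nonneg (by linarith)]
      ring
    exact_mod_cast h6
  have h7 := Int.floor_le Y
  calc ((W.filter (fun w : ℤ => |(w : ℝ)| ≤ Y)).card : ℝ)
      ≤ ((⌊Y⌋ + 1 - -⌊Y⌋).toNat : ℝ) := by exact_mod_cast h3
    _ = 2 * (⌊Y⌋ : ℝ) + 1 := h5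
    _ ≤ 2 * Y + 1 := by linarith

theorem pf_NGS (h1 : T_CHB) : T_NGS := by
  intro hLAM hLAMM q δ C₀ M c k₀ p₀ hq hq1 hM hPK hJC hTop
  obtain ⟨CT, cT, s, hCT, hcT, hs, K₂, hTOP⟩ := hTop
  obtain ⟨K₃, hCHB⟩ := h1 q δ C₀ (2 * M + 8) c k₀ p₀ hq hq1 hPK hJC
  set C2 : ℝ := max CT (Real.exp (cT * (1 / 32) ^ s)) with hC2
  have hC2p : 0 < C2 := lt_of_lt_of_le hCT (le_max_left _ _)
  set κ : ℝ := Real.log (8 / 3) + (M + 4) with hκ
  obtain ⟨S, hS0, hS⟩ := exists_bound κ (cT / 2) s (by positivity) hs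
  refine ⟨256 * √(2 * C2) * S, by positivity, max K₂ K₃, ?_⟩
  intro K a a1 m hK hKa haa1 hm j hj ρ W
  have hK2 : K₂ ≤ K := (le_max_left _ _).trans hK
  have hK3 : K₃ ≤ K := (le_max_right _ _).trans hK
  obtain ⟨n, rfl⟩ : ∃ n, K = a1 + 2 + n := ⟨K - (a1 + 2), by omega⟩
  set K := a1 + 2 + n with hKdef
  -- the event for a fixed height
  let Ev : ℕ → ℤ → Set PEnv := fun h w =>
    {E | Lam (eA E) (oK K) (eK K) j ∈ win a1 w ∧ HT K (Lam (eA E) (oK K) (eK K)) h ∧
      ∀ k, a1 ≤ k → k + h + 2 ≤ K → ¬ (goodAt c (Xf K) a (K - 2) k (zc j a1 w) (eA E) ∧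
        goodAt c (Xf K) a (K - 2) k (zc j a1 w) (eB E))}
  let D : ℕ → ℝ := fun h => (8 / 3 : ℝ) ^ (h - 1) / 32
  let G : ℕ → ℝ := fun h => √(2 * C2) * (Real.exp (-(cT / 2 * (D h) ^ s)) *
    Real.exp (-((M + 4) * (n - h))))
  have hG0 : ∀ h, 0 ≤ G h := fun h => by positivity
  have hjr : -lv K ≤ j ∧ j ≤ lv K := by
    have h2 := abs_le.1 hj
    have h3 : (24 : ℤ) * 64 ^ (K - 1) ≤ lv K := by
      unfold lv
      have : (0 : ℤ) < 64 ^ (K - 1) := by positivity
      nlinarith only [this]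
    constructor <;> linarith [h2.1, h2.2]
  -- bound of one event
  have hone : ∀ h w, h + m ≤ n → PN q (ρ w) (Ev h w) ≤ ENNReal.ofReal (G h) := by
    intro h w hhm
    have hx : PN q (ρ w) (Ev h w) ≤ ENNReal.ofReal (C2 * Real.exp (-(cT * (D h) ^ s))) := by
      rcases Nat.eq_zero_or_pos h with h0 | h0
      · refine prob_le_one.trans ?_
        rw [← ENNReal.ofReal_one]
        refine ENNReal.ofReal_le_ofReal ?_
        have hD : D h = 1 / 32 := by
          simp only [D, h0]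
          norm_num
        rw [hD, Real.exp_neg]
        have h4 : Real.exp (cT * (1 / 32) ^ s) ≤ C2 := le_max_right _ _
        rw [← div_eq_mul_inv, le_div_iff₀ (Real.exp_pos _), one_mul]
        exact h4
      · have hmp := Pool.Agent.H97.NF.mp_eA q (ρ w)
        have h4 : Ev h w ⊆ eA ⁻¹' {ω | ∃ t, -lv K ≤ t ∧ t ≤ lv K ∧
            D h * 16 ^ K < |(Lam ω (oK K) (eK K) t : ℝ)|} := by
          intro E hE
          obtain ⟨_, ⟨_, hE2⟩, _⟩ := hE
          rcases hE2 with hE2 | ⟨t, ht1, ht2, ht3⟩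
          · omega
          · refine ⟨t, ht1, ht2, ?_⟩
            simp only [D]
            linarith
        have h5 := hTOP K hK2 (D h) (by positivity)
        refine (measure_mono h4).trans ?_
        refine (Measure.le_map_apply hmp.measurable.aemeasurable _).trans ?_
        rw [hmp.map_eq]
        refine h5.trans ?_
        refine ENNReal.ofReal_le_ofReal ?_
        exact mul_le_mul_of_nonneg_right (le_max_left _ _) (Real.exp_pos _).le
    have hy : PN q (ρ w) (Ev h w) ≤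
        ENNReal.ofReal (2 * Real.exp (-((2 * M + 8) * (n - h)))) := by
      have h5 := (hCHB K a a1 (K - 2 - h) (zc j a1 w) (ρ w) hK3 hKa haa1 (by omega)
        (by omega)).2
      have h6 : (((K - 2 - h : ℕ) : ℝ) - (a1 : ℝ)) = (n : ℝ) - h := by
        have h7 : K - 2 - h + h = a1 + n := by omega
        have h8 : ((K - 2 - h : ℕ) : ℝ) + h = a1 + n := by exact_mod_cast h7
        linarith only [h8]
      rw [h6] at h5
      refine (measure_mono ?_).trans h5
      intro E hE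
      obtain ⟨_, _, hE3⟩ := hE
      intro k hk1 hk2
      exact hE3 k hk1 (by omega)
    refine le_sqrt_mul hx hy (hG0 h) ?_
    simp only [G]
    have h8 : √(2 * C2) * √(2 * C2) = 2 * C2 := Real.mul_self_sqrt (by positivity)
    have h9 : Real.exp (-(cT * (D h) ^ s)) =
        Real.exp (-(cT / 2 * (D h) ^ s)) * Real.exp (-(cT / 2 * (D h) ^ s)) := by
      rw [← Real.exp_add]
      congr 1
      ring
    have h10 : Real.exp (-((2 * M + 8) * ((n : ℝ) - h))) =
        Real.exp (-((M + 4) * ((n : ℝ) - h))) * Real.exp (-((M + 4) * ((n : ℝ) - h))) := by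
      rw [← Real.exp_add]
      congr 1
      ring
    rw [h9, h10]
    calc C2 * (Real.exp (-(cT / 2 * (D h) ^ s)) * Real.exp (-(cT / 2 * (D h) ^ s))) *
        (2 * (Real.exp (-((M + 4) * ((n : ℝ) - h))) * Real.exp (-((M + 4) * ((n : ℝ) - h)))))
        = (2 * C2) * (Real.exp (-(cT / 2 * (D h) ^ s)) * Real.exp (-(cT / 2 * (D h) ^ s)) *
          (Real.exp (-((M + 4) * ((n : ℝ) - h))) * Real.exp (-((M + 4) * ((n : ℝ) - h))))) := by
          ring
      _ = (√(2 * C2) * √(2 * C2)) *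
          (Real.exp (-(cT / 2 * (D h) ^ s)) * Real.exp (-(cT / 2 * (D h) ^ s)) *
          (Real.exp (-((M + 4) * ((n : ℝ) - h))) * Real.exp (-((M + 4) * ((n : ℝ) - h))))) := by
          rw [h8]
      _ = _ := by ring
  -- emptiness for far windows
  let Y : ℕ → ℝ := fun h => (8 / 3 : ℝ) ^ h * 16 ^ (n + 2) / 32 + 1
  have hfar : ∀ (h : ℕ) (w : ℤ), ¬ |(w : ℝ)| ≤ Y h → Ev h w = ∅ := by
    intro h w hw
    rw [Set.eq_empty_iff_forall_notMem]
    rintro E ⟨hE1, ⟨hE2, _⟩, _⟩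
    apply hw
    have h2 := hE2 j hjr.1 hjr.2
    obtain ⟨h3, h4⟩ := hE1
    have h3' : (w : ℝ) * 16 ^ a1 ≤ (Lam (eA E) (oK K) (eK K) j : ℝ) := by exact_mod_cast h3
    have h4' : (Lam (eA E) (oK K) (eK K) j : ℝ) < ((w : ℝ) + 1) * 16 ^ a1 := by
      exact_mod_cast h4
    have h5 : |(w : ℝ)| * 16 ^ a1 ≤ |(Lam (eA E) (oK K) (eK K) j : ℝ)| + 16 ^ a1 := by
      have hp : (0 : ℝ) < 16 ^ a1 := by positivity
      rcases abs_cases (w : ℝ) with ⟨h6, _⟩ | ⟨h6, _⟩
      · rw [h6]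
        linarith [le_abs_self (Lam (eA E) (oK K) (eK K) j : ℝ)]
      · rw [h6]
        linarith [neg_abs_le (Lam (eA E) (oK K) (eK K) j : ℝ)]
    have h6 : (16 : ℝ) ^ K = 16 ^ a1 * 16 ^ (n + 2) := by
      rw [← pow_add]
      congr 1
      omega
    have hp : (0 : ℝ) < 16 ^ a1 := by positivity
    have h7 : |(w : ℝ)| * 16 ^ a1 ≤ Y h * 16 ^ a1 := by
      simp only [Y]
      rw [h6] at h2
      linarith
    exact le_of_mul_le_mul_right h7 hp
  -- summation
  have hstep : ∀ w ∈ W, PN q (ρ w) {E | Lam (eA E) (oK K) (eK K) j ∈ win a1 w ∧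
      ∃ h : ℕ, a1 + m + h + 2 ≤ K ∧ HT K (Lam (eA E) (oK K) (eK K)) h ∧
        ∀ k, a1 ≤ k → k + h + 2 ≤ K → ¬ (goodAt c (Xf K) a (K - 2) k (zc j a1 w) (eA E) ∧
          goodAt c (Xf K) a (K - 2) k (zc j a1 w) (eB E))} ≤
      ∑ h ∈ Finset.range (n - m + 1), ENNReal.ofReal (if |(w : ℝ)| ≤ Y h then G h else 0) := by
    intro w _
    refine (measure_mono (t := ⋃ h ∈ Finset.range (n - m + 1), Ev h w) ?_).trans ?_
    · rintro E ⟨hE1, h, hh, hE2, hE3⟩
      simp only [Set.mem_iUnion]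
      exact ⟨h, Finset.mem_range.2 (by omega), hE1, hE2, hE3⟩
    · refine (measure_biUnion_finset_le _ _).trans ?_
      refine Finset.sum_le_sum fun h hh => ?_
      rw [Finset.mem_range] at hh
      by_cases hw : |(w : ℝ)| ≤ Y h
      · rw [if_pos hw]
        exact hone h w (by omega)
      · rw [hfar h w hw, measure_empty]
        exact bot_le
  refine (Finset.sum_le_sum hstep).trans ?_
  have hnn : ∀ w : ℤ, ∀ h : ℕ, 0 ≤ (if |(w : ℝ)| ≤ Y h then G h else 0) := by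
    intro w h
    split_ifs
    · exact hG0 h
    · exact le_rfl
  have hrew : ∑ w ∈ W, ∑ h ∈ Finset.range (n - m + 1),
      ENNReal.ofReal (if |(w : ℝ)| ≤ Y h then G h else 0) =
      ENNReal.ofReal (∑ w ∈ W, ∑ h ∈ Finset.range (n - m + 1),
        (if |(w : ℝ)| ≤ Y h then G h else 0)) := by
    rw [ENNReal.ofReal_sum_of_nonneg (fun w _ => Finset.sum_nonneg fun h _ => hnn w h)]
    refine Finset.sum_congr rfl fun w _ => ?_
    rw [ENNReal.ofReal_sum_of_nonneg (fun h _ => hnn w h)]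
  rw [hrew]
  refine ENNReal.ofReal_le_ofReal ?_
  rw [Finset.sum_comm]
  have hinner : ∀ h ∈ Finset.range (n - m + 1),
      (∑ w ∈ W, (if |(w : ℝ)| ≤ Y h then G h else 0)) ≤
      16 ^ (n + 2) * √(2 * C2) * Real.exp (-((M + 4) * n)) *
        (Real.exp (κ * h) * Real.exp (-(cT / 2 * ((8 / 3 : ℝ) ^ (h - 1) / 32) ^ s))) := by
    intro h _
    rw [← Finset.sum_filter, Finset.sum_const, nsmul_eq_mul]
    have hY0 : 0 ≤ Y h := by positivity
    have h2 := card_win W (Y h) hY0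
    have h3 : 2 * Y h + 1 ≤ (8 / 3 : ℝ) ^ h * 16 ^ (n + 2) := by
      simp only [Y]
      have h4 : (1 : ℝ) ≤ (8 / 3 : ℝ) ^ h := one_le_pow₀ (by norm_num)
      have h5 : (256 : ℝ) ≤ 16 ^ (n + 2) := by
        rw [pow_add]
        have : (1 : ℝ) ≤ 16 ^ n := one_le_pow₀ (by norm_num)
        nlinarith only [this]
      nlinarith only [h4, h5, hq, hq1]
    have h4 : Real.exp (κ * h) = (8 / 3 : ℝ) ^ h * Real.exp ((M + 4) * h) := by
      rw [hκ, add_mul, Real.exp_add]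
      congr 1
      rw [mul_comm, Real.exp_nat_mul, Real.exp_log (by norm_num)]
    have h5 : Real.exp (-((M + 4) * ((n : ℝ) - h))) =
        Real.exp (-((M + 4) * n)) * Real.exp ((M + 4) * h) := by
      rw [← Real.exp_add]
      congr 1
      ring
    calc ((W.filter (fun w : ℤ => |(w : ℝ)| ≤ Y h)).card : ℝ) * G h
        ≤ ((8 / 3 : ℝ) ^ h * 16 ^ (n + 2)) * G h :=
          mul_le_mul_of_nonneg_right (h2.trans h3) (hG0 h)
      _ = _ := by
          simp only [G, D]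
          rw [h4, h5]
          ring
  refine (Finset.sum_le_sum hinner).trans ?_
  rw [← Finset.mul_sum]
  have h16 : (16 : ℝ) ^ (n + 2) * Real.exp (-((M + 4) * n)) ≤ 256 * Real.exp (-(M * m)) := by
    have h2 : (16 : ℝ) ≤ Real.exp 3 := by
      have h3 : Real.exp 3 = Real.exp 1 ^ 3 := by
        rw [← Real.exp_nat_mul]
        norm_num
      rw [h3]
      have h4 := Real.exp_one_gt_d9
      have h5 : (2.7 : ℝ) ^ 3 ≤ Real.exp 1 ^ 3 := pow_le_pow_left₀ (by norm_num) (by linarith) 3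
      norm_num at h5 ⊢
      linarith
    have h3 : (16 : ℝ) ^ n ≤ Real.exp (3 * n) := by
      rw [mul_comm, Real.exp_nat_mul]
      exact pow_le_pow_left₀ (by norm_num) h2 n
    have h4 : (16 : ℝ) ^ (n + 2) = 256 * 16 ^ n := by
      rw [pow_add]
      ring
    rw [h4, mul_assoc]
    refine mul_le_mul_of_nonneg_left ?_ (by norm_num)
    refine (mul_le_mul_of_nonneg_right h3 (Real.exp_pos _).le).trans ?_
    rw [← Real.exp_add]
    refine Real.exp_le_exp.2 ?_
    have h5 : (m : ℝ) ≤ n := by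
      have : m ≤ n := by omega
      exact_mod_cast this
    have h6 : (0 : ℝ) ≤ n := by positivity
    nlinarith only [mul_le_mul_of_nonneg_left h5 hM, h5, hM]
  have hSn := hS (n - m + 1)
  have hS' : 0 ≤ ∑ h ∈ Finset.range (n - m + 1), Real.exp (κ * h) *
      Real.exp (-(cT / 2 * ((8 / 3 : ℝ) ^ (h - 1) / 32) ^ s)) :=
    Finset.sum_nonneg fun h _ => by positivity
  calc 16 ^ (n + 2) * √(2 * C2) * Real.exp (-((M + 4) * n)) *
      ∑ h ∈ Finset.range (n - m + 1), Real.exp (κ * h) *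
        Real.exp (-(cT / 2 * ((8 / 3 : ℝ) ^ (h - 1) / 32) ^ s))
      ≤ 16 ^ (n + 2) * √(2 * C2) * Real.exp (-((M + 4) * n)) * S :=
        mul_le_mul_of_nonneg_left hSn (by positivity)
    _ = (16 ^ (n + 2) * Real.exp (-((M + 4) * n))) * (√(2 * C2) * S) := by ring
    _ ≤ (256 * Real.exp (-(M * m))) * (√(2 * C2) * S) :=
        mul_le_mul_of_nonneg_right h16 (by positivity)
    _ = 256 * √(2 * C2) * S * Real.exp (-(M * m)) := by ring

end Pool.Agent.H37.PD
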